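import Pool.Agent.Lib.NDG.Main

/-!
# Gauss images of closed hypersurfaces of spheres are Hamiltonian non-displaceable

`Hypersurface n f`: `f` is a smooth function on `ℝ^(n+2)` whose zero set `N` in the unit sphere `S^(n+1)` is nonempty and
regular. `GaussImage n f`: the set of the points `[x + i ν(x)]`, `x ∈ N`, of the complex hyperquadric `Q_n`, `ν` the unit normal.
`Displaceable n L`: some Hamiltonian diffeomorphism `φ 1` of `Q_n` (`HamIsotopy`) has `φ 1 (L)` disjoint from `L`.
-/

namespace Pool.Agent.Results.MP_0eef51_gt.GaussImages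

open NDG

theorem result (n : ℕ) (hn : 1 ≤ n) (f : EuclideanSpace ℝ (Fin (n + 2)) → ℝ)
    (hf : Hypersurface n f) : ¬ Displaceable n (GaussImage n f) :=
  main n hn f hf

end Pool.Agent.Results.MP_0eef51_gt.GaussImages
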